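import Pool.Agent.H39.Newt2.Base

/-! # Project NEWTON2, module MIN: directions of minimal support are rigid weights -/

set_option autoImplicit false

namespace Pool.Newt2

open MvPolynomial Pool.Agent.H39.MonoR Pool.Agent.H75.Mono Pool.Newt

namespace MINp

variable {σ I : Type} [Fintype σ] [Fintype I]

omit [Fintype I] in
/-- linearity of the forms -/
theorem lam_comb (a : I → σ → ℕ) (u y : σ → ℤ) (N R P : ℤ) (ξ : Co σ I) :
    lam a (fun l => R * u l + P * y l) (R * N) ξ = R * lam a u N ξ + P * lam a y 0 ξ := by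
  rcases ξ with _ | l | i
  · simp [lam]
  · simp [lam]
  · simp only [lam, add_mul, Finset.sum_add_distrib, sub_zero, mul_sub, Finset.mul_sum, mul_assoc]
    ring

open Classical in
/-- an integral relation if `w` is not rigid -/
theorem exists_rel (a : I → σ → ℕ) (w : σ → ℕ) (h : ¬ Rigid a w) :
    ∃ y : σ → ℤ, (∀ l, w l = 0 → y l = 0) ∧ (∃ l, y l < 0) ∧
      ∀ i ∈ face a w, ∑ l, y l * (a i l : ℤ) = 0 := by
  -- without the sign
  have key : ∃ y : σ → ℤ, (∀ l, w l = 0 → y l = 0) ∧ (∃ l, y l ≠ 0) ∧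
      ∀ i ∈ face a w, ∑ l, y l * (a i l : ℤ) = 0 := by
    unfold Rigid at h
    rw [Fintype.not_linearIndependent_iff] at h
    obtain ⟨g, hg, l0, hl0⟩ := h
    obtain ⟨b, hb⟩ := IsLocalization.exist_integer_multiples_of_finite (nonZeroDivisors ℤ) g
    choose z hz using hb
    have hb0 : ((b : ℤ) : ℚ) ≠ 0 := by
      have : (b : ℤ) ≠ 0 := nonZeroDivisors.ne_zero b.2
      exact_mod_cast this
    have hz' : ∀ l, ((z l : ℤ) : ℚ) = (b : ℤ) * g l := by
      intro l
      have := hz l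
      simpa [Algebra.smul_def] using this
    refine ⟨fun l => if hl : w l ≠ 0 then z ⟨l, hl⟩ else 0, ?_, ?_, ?_⟩
    · intro l hl
      simp [hl]
    · refine ⟨l0.1, ?_⟩
      have hl : w l0.1 ≠ 0 := l0.2
      simp only [ne_eq, hl, not_false_eq_true, dite_true]
      intro h0
      have h1 := hz' l0
      have h2 : z l0 = 0 := h0
      rw [h2, Int.cast_zero] at h1
      exact hl0 ((mul_eq_zero.1 h1.symm).resolve_left hb0)
    · intro i hi
      have h1 := congrFun hg ⟨i, hi⟩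
      simp only [Finset.sum_apply, Pi.smul_apply, smul_eq_mul, Pi.zero_apply] at h1
      have h2 : ∑ l : {l // w l ≠ 0}, ((z l : ℤ) : ℚ) * (a i l : ℚ) = 0 := by
        simp only [hz', mul_assoc]
        rw [← Finset.mul_sum, h1, mul_zero]
      have h3 : ∑ l : {l // w l ≠ 0}, z l * (a i l : ℤ) = 0 := by
        exact_mod_cast h2
      have e1 : ∑ l ∈ Finset.univ.filter (fun l => w l ≠ 0),
          (if hl : w l ≠ 0 then z ⟨l, hl⟩ else 0) * (a i l : ℤ) =
          ∑ l : {l // w l ≠ 0}, (if hl : w l.1 ≠ 0 then z ⟨l.1, hl⟩ else 0) * (a i l.1 : ℤ) :=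
        Finset.sum_subtype _ (fun l => by simp)
          (fun l => (if hl : w l ≠ 0 then z ⟨l, hl⟩ else 0) * (a i l : ℤ))
      have e2 : ∑ l ∈ Finset.univ.filter (fun l => w l ≠ 0),
          (if hl : w l ≠ 0 then z ⟨l, hl⟩ else 0) * (a i l : ℤ) =
          ∑ l, (if hl : w l ≠ 0 then z ⟨l, hl⟩ else 0) * (a i l : ℤ) := by
        refine Finset.sum_filter_of_ne fun l _ hl h0 => hl ?_
        simp [h0]
      have e3 : ∑ l : {l // w l ≠ 0}, (if hl : w l.1 ≠ 0 then z ⟨l.1, hl⟩ else 0) * (a i l.1 : ℤ) =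
          ∑ l : {l // w l ≠ 0}, z l * (a i l : ℤ) := by
        refine Finset.sum_congr rfl fun l _ => ?_
        have : w l.1 ≠ 0 := l.2
        simp [this]
      have h4 : ∑ l, (if hl : w l ≠ 0 then z ⟨l, hl⟩ else 0) * (a i l : ℤ) =
          ∑ l : {l // w l ≠ 0}, z l * (a i l : ℤ) := by
        rw [← e2, e1, e3]
      rw [h4, h3]
  obtain ⟨y, h1, ⟨l0, h2⟩, h3⟩ := key
  rcases lt_or_gt_of_ne h2 with h4 | h4
  · exact ⟨y, h1, ⟨l0, h4⟩, h3⟩
  · refine ⟨fun l => - y l, fun l hl => ?_, ⟨l0, ?_⟩, fun i hi => ?_⟩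
    · simp [h1 l hl]
    · simpa using h4
    · simp [h3 i hi]

end MINp

open MINp in
open Classical in
theorem min_thm : SMin := by
  intro σ I _ _ _ a Sl hnone hcov hex
  let C : (σ → ℕ) → ℕ → Prop := fun w m =>
    (∀ ξ, 0 ≤ lam a (fun l => (w l : ℤ)) m ξ) ∧
      (∀ ξ ∈ Sl, lam a (fun l => (w l : ℤ)) m ξ = 0) ∧ m ≠ 0
  let sz : (σ → ℕ) → ℕ → ℕ := fun w m =>
    (Finset.univ.filter fun ξ : Co σ I => lam a (fun l => (w l : ℤ)) m ξ ≠ 0).card
  have hQ : ∃ n, ∃ w m, C w m ∧ sz w m = n := by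
    obtain ⟨w, m, h⟩ := hex
    exact ⟨_, w, m, h, rfl⟩
  obtain ⟨w, m, hC, hcard⟩ := Nat.find_spec hQ
  have hmin : ∀ w' m', C w' m' → sz w m ≤ sz w' m' := by
    intro w' m' h
    rw [hcard]
    exact Nat.find_min' hQ ⟨w', m', h, rfl⟩
  obtain ⟨hpos, hzero, hm⟩ := hC
  have hle : ∀ i, m ≤ dot w (a i) := by
    intro i
    have := hpos (some (Sum.inr i))
    rw [lam_nat] at this
    omega
  -- m = N(w)
  have hmN : m = Nw a w := by
    obtain ⟨i0, hi0⟩ := exists_mem_face a w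
    have h1 : m ≤ Nw a w := by
      rw [Nw_eq hi0]
      exact hle i0
    by_contra hne
    have h2 : m < Nw a w := lt_of_le_of_ne h1 hne
    have h3 : ∀ i, some (Sum.inr i) ∉ Sl := by
      intro i hi
      have h4 := hzero _ hi
      rw [lam_nat] at h4
      have h5 := Nw_le a w i
      omega
    have h4 : ∀ l, w l = 0 := by
      intro l
      by_contra hl
      have h5 : some (Sum.inl l) ∉ Sl := by
        intro h6
        have h7 := hzero _ h6
        simp only [lam] at h7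
        omega
      obtain ⟨i, hi, -⟩ := hcov l h5
      exact h3 i hi
    have h5 : dot w (a i0) = 0 := by
      unfold dot
      exact Finset.sum_eq_zero fun j _ => by rw [h4 j, zero_mul]
    rw [Nw_eq hi0, h5] at h2
    omega
  refine ⟨w, ?_, by omega, fun ξ hξ => by rw [← hmN]; exact hzero ξ hξ⟩
  by_contra hr
  obtain ⟨y, hy0, ⟨l0, hl0⟩, hyf⟩ := exists_rel a w hr
  -- the negative directions
  let Ng : Finset (Co σ I) := Finset.univ.filter fun ξ => lam a y 0 ξ < 0
  have hNg : some (Sum.inl l0) ∈ Ng := by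
    simp [Ng, lam, hl0]
  -- forms which vanish at `(w, m)` vanish at `(y, 0)`
  have hvan : ∀ ξ, lam a (fun l => (w l : ℤ)) m ξ = 0 → lam a y 0 ξ = 0 := by
    intro ξ hξ
    rcases ξ with _ | l | i
    · rfl
    · simp only [lam] at hξ ⊢
      exact hy0 l (by exact_mod_cast hξ)
    · have h1 : i ∈ face a w := by
        rw [← lam_face a w i, ← hmN]
        exact hξ
      simp only [lam, sub_zero]
      exact hyf i h1
  have hP : ∀ ξ ∈ Ng, 0 < lam a (fun l => (w l : ℤ)) m ξ := by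
    intro ξ hξ
    refine lt_of_le_of_ne (hpos ξ) fun h => ?_
    have h1 := hvan ξ h.symm
    have h2 : lam a y 0 ξ < 0 := (Finset.mem_filter.1 hξ).2
    omega
  obtain ⟨ξ0, hξ0, hmin0⟩ := Finset.exists_min_image Ng
    (fun ξ => (lam a (fun l => (w l : ℤ)) m ξ : ℚ) / (-(lam a y 0 ξ) : ℚ)) ⟨_, hNg⟩
  set P : ℤ := lam a (fun l => (w l : ℤ)) m ξ0 with hPdef
  set R : ℤ := -(lam a y 0 ξ0) with hRdef
  have hP0 : 0 < P := hP ξ0 hξ0
  have hR0 : 0 < R := by
    have h2 : lam a y 0 ξ0 < 0 := (Finset.mem_filter.1 hξ0).2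
    omega
  -- the new point
  have hnew : ∀ ξ, 0 ≤ R * lam a (fun l => (w l : ℤ)) m ξ + P * lam a y 0 ξ := by
    intro ξ
    by_cases hξ : ξ ∈ Ng
    · have h2 : lam a y 0 ξ < 0 := (Finset.mem_filter.1 hξ).2
      have h3 := hmin0 ξ hξ
      have h4 : (0 : ℚ) < -(lam a y 0 ξ : ℚ) := by
        have : (lam a y 0 ξ : ℚ) < 0 := by exact_mod_cast h2
        linarith
      have h5 : (0 : ℚ) < (R : ℚ) := by exact_mod_cast hR0
      have h6 : (-(lam a y 0 ξ0) : ℚ) = (R : ℚ) := by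
        rw [hRdef]
        push_cast
        ring
      rw [h6, div_le_div_iff₀ h5 h4] at h3
      have h7 : ((0 : ℤ) : ℚ) ≤ ((R * lam a (fun l => (w l : ℤ)) m ξ + P * lam a y 0 ξ : ℤ) : ℚ) := by
        push_cast
        push_cast at h3
        nlinarith [h3]
      exact_mod_cast h7
    · have h2 : 0 ≤ lam a y 0 ξ := by
        by_contra h
        exact hξ (Finset.mem_filter.2 ⟨Finset.mem_univ _, by omega⟩)
      have := hpos ξ
      positivity
  let w' : σ → ℕ := fun l => (R * (w l : ℤ) + P * y l).toNat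
  have hw' : ∀ l, ((w' l : ℕ) : ℤ) = R * (w l : ℤ) + P * y l := by
    intro l
    have := hnew (some (Sum.inl l))
    simp only [lam] at this
    exact Int.toNat_of_nonneg this
  let m' : ℕ := R.toNat * m
  have hm' : ((m' : ℕ) : ℤ) = R * m := by
    simp only [m']
    push_cast
    rw [Int.toNat_of_nonneg hR0.le]
  have hlam : ∀ ξ, lam a (fun l => (w' l : ℤ)) m' ξ =
      R * lam a (fun l => (w l : ℤ)) m ξ + P * lam a y 0 ξ := by
    intro ξ
    rw [← lam_comb, hm']
    congr 1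
    funext l
    exact hw' l
  have hC' : C w' m' := by
    refine ⟨fun ξ => ?_, fun ξ hξ => ?_, ?_⟩
    · rw [hlam]
      exact hnew ξ
    · rw [hlam, hzero ξ hξ, hvan ξ (hzero ξ hξ)]
      ring
    · intro h0
      rw [h0, Nat.cast_zero] at hm'
      rcases mul_eq_zero.1 hm'.symm with h1 | h1
      · omega
      · exact hm (by exact_mod_cast h1)
  have hlt : sz w' m' < sz w m := by
    apply Finset.card_lt_card
    refine ⟨fun ξ hξ => ?_, fun hsub => ?_⟩
    · rw [Finset.mem_filter] at hξ ⊢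
      refine ⟨Finset.mem_univ _, fun h => hξ.2 ?_⟩
      rw [hlam, h, hvan ξ h]
      ring
    · have h1 : ξ0 ∈ Finset.univ.filter
          fun ξ : Co σ I => lam a (fun l => (w l : ℤ)) m ξ ≠ 0 :=
        Finset.mem_filter.2 ⟨Finset.mem_univ _, hP0.ne'⟩
      have h2 := (Finset.mem_filter.1 (hsub h1)).2
      apply h2
      rw [hlam]
      have : lam a y 0 ξ0 = -R := by omega
      rw [← hPdef, this]
      ring
  exact absurd (hmin w' m' hC') (not_le.2 hlt)

end Pool.Newt2
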